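import Mathlib

/-!
# Iterated biased random walks on `ℤ^d` (MP_bb3c31_pr): definitions (helper5)
-/

set_option autoImplicit false

open MeasureTheory Filter Topology

namespace Pool.Agent.K3h5.IB

/-- the vertices of the lattice `ℤ^d` -/
abbrev V (d : ℕ) : Type := Fin d → ℤ

/-- the directions `± e_j`: `(j, true)` is `e_j`, `(j, false)` is `- e_j` -/
abbrev D (d : ℕ) : Type := Fin d × Bool

variable {d : ℕ}

/-- the unit vector of a direction -/
def vec (e : D d) : V d := Pi.single e.1 (if e.2 then 1 else -1)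

/-- the opposite direction -/
def opp (e : D d) : D d := (e.1, !e.2)

/-- a subgraph of `ℤ^d` is given by the set of the pairs `(v, e)` for which the edge `{v, v + e}`
belongs to the graph; `nbrs Z v` is the set of the directions of the edges at `v` -/
noncomputable def nbrs (Z : Set (V d × D d)) (v : V d) : Finset (D d) := by
  classical exact Finset.univ.filter fun e => (v, e) ∈ Z

/-- the transition probability from `v` to `w` of the `p`-random walk on the graph `Z` -/
noncomputable def trans (p : D d → ℝ) (Z : Set (V d × D d)) (v w : V d) : ℝ :=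
  ∑ e ∈ nbrs Z v, if v + vec e = w then p e / ∑ e' ∈ nbrs Z v, p e' else 0

/-- the probability that the `p`-random walk on `Z` with start in `0` begins with
`y 0, y 1, ..., y n` -/
noncomputable def weight (p : D d → ℝ) (Z : Set (V d × D d)) (y : ℕ → V d) (n : ℕ) : ℝ :=
  if y 0 = 0 then ∏ k ∈ Finset.range n, trans p Z (y k) (y (k + 1)) else 0

/-- the trace of the path `y`: the graph of the (undirected) edges `{y n, y (n + 1)}` -/
def trace (y : ℕ → V d) : Set (V d × D d) :=
  {a | ∃ n, (y n = a.1 ∧ y (n + 1) = a.1 + vec a.2) ∨ (y (n + 1) = a.1 ∧ y n = a.1 + vec a.2)}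

/-- `Z^(0) = ℤ^d`, and `Z^(i+1)` is the trace of the path `X^(i)` -/
def graph (X : ℕ → ℕ → V d) : ℕ → Set (V d × D d)
  | 0 => Set.univ
  | i + 1 => trace (X i)

/-- `Z^(∞)`, the intersection of the graphs `Z^(i)` -/
def graphInf (X : ℕ → ℕ → V d) : Set (V d × D d) := ⋂ i, graph X i

/-- `X` is a `p`-random walk on the random graph `Z`, conditionally on the σ-algebra `𝒢` -/
structure IsWalk {Ω : Type*} [mΩ : MeasurableSpace Ω] (μ : Measure Ω) (p : D d → ℝ)
    (𝒢 : MeasurableSpace Ω) (Z : Ω → Set (V d × D d)) (X : Ω → ℕ → V d) : Prop where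
  meas : ∀ n, Measurable[mΩ] fun ω => X ω n
  law : ∀ A : Set Ω, MeasurableSet[𝒢] A → ∀ (n : ℕ) (y : ℕ → V d),
    μ.real (A ∩ {ω | ∀ k ≤ n, X ω k = y k}) = ∫ ω in A, weight p (Z ω) y n ∂μ

/-- The σ-algebra of the events which depend on `X^(0), ..., X^(i-1)` only. -/
@[reducible] def past {Ω : Type*} (X : Ω → ℕ → ℕ → V d) (i : ℕ) : MeasurableSpace Ω :=
  ⨆ j : Fin i, MeasurableSpace.comap (fun ω => X ω j) inferInstance

/-- the σ-algebra generated by the random graph `Z` -/
@[reducible] def sigmaGraph {Ω : Type*} (Z : Ω → Set (V d × D d)) : MeasurableSpace Ω :=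
  MeasurableSpace.generateFrom {A | ∃ a : V d × D d, A = {ω | a ∈ Z ω}}

/-- `X^(i)`, `i = 0, 1, ...`, are iterated random walks with the step distributions `p i`:
conditionally on `X^(0), ..., X^(i-1)` the path `X^(i)` is a `p i`-random walk on the trace `Z^(i)`
of `X^(i-1)` (`Z^(0) = ℤ^d`), and `Y = X^(∞)` is a `q`-random walk on `Z^(∞)`. -/
structure IsIterated {Ω : Type*} [MeasurableSpace Ω] (μ : Measure Ω) (p : ℕ → D d → ℝ)
    (q : D d → ℝ) (X : Ω → ℕ → ℕ → V d) (Y : Ω → ℕ → V d) : Prop where
  walk : ∀ i, IsWalk μ (p i) (past X i) (fun ω => graph (X ω) i) (fun ω => X ω i)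
  walkInf : IsWalk μ q (sigmaGraph fun ω => graphInf (X ω)) (fun ω => graphInf (X ω)) Y

/-- the drift `δ_j = p(e_j) - p(-e_j)` -/
def drift (p : D d → ℝ) (j : Fin d) : ℝ := p (j, true) - p (j, false)

/-! ### the model: walks driven by stacks -/

/-- number of the visits of the path `y` to the vertex `y n` before the time `n` -/
def cnt (y : ℕ → V d) (n : ℕ) : ℕ := ((Finset.range n).filter fun j => y j = y n).card

/-- the path `y` is driven by the stacks `s`: after its visit number `m` (`m = 0, 1, ...`) to the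
vertex `v` it goes to `s v m` -/
def Driven (s : V d → ℕ → V d) (y : ℕ → V d) : Prop := ∀ n, y (n + 1) = s (y n) (cnt y n)

/-- the history of the path which is driven by the stacks, with start in `0` -/
def hist (s : V d → ℕ → V d) : ℕ → List (V d)
  | 0 => [0]
  | n + 1 => s ((hist s n).headD 0) ((hist s n).tail.count ((hist s n).headD 0)) :: hist s n

/-- the path which starts in `0` and is driven by the stacks `s` -/
def route (s : V d → ℕ → V d) (n : ℕ) : V d := (hist s n).headD 0

/-- indices of the stacks: (level, number of the visit, set of admissible directions).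
The level `0` is used for `X^(∞)`, the level `i ≥ 1` for `X^(i)`. -/
abbrev J (d : ℕ) : Type := ℕ × ℕ × Finset (D d)

/-- the random input at one time `k`: the step of `X^(0)` (`none`), and the stacks of all levels at
the vertex which `X^(0)` visits for the first time at the time `k` -/
abbrev S (d : ℕ) : Type := Option (J d) → D d

/-- the path of `X^(0)` -/
def path0 (x : ℕ → S d) (n : ℕ) : V d := ∑ k ∈ Finset.range n, vec (x k none)

/-- the time of the first visit of `X^(0)` to `v` -/
noncomputable def idx (x : ℕ → S d) (v : V d) : ℕ := sInf {n | path0 x n = v}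

/-- the stacks of the level `i` for the graph `Z` -/
noncomputable def stk (x : ℕ → S d) (i : ℕ) (Z : Set (V d × D d)) (v : V d) (m : ℕ) : V d :=
  v + vec (x (idx x v) (some (i, m, nbrs Z v)))

/-- the model of the walks `X^(i)` -/
noncomputable def XX (x : ℕ → S d) : ℕ → ℕ → V d
  | 0 => path0 x
  | i + 1 => route (stk x (i + 1) (trace (XX x i)))

/-- the model of the walk `X^(∞)` -/
noncomputable def YY (x : ℕ → S d) : ℕ → V d := route (stk x 0 (graphInf (XX x)))

/-- the choice of a direction in `E` with probabilities proportional to `p` (in the set of all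
directions if `E` is empty) -/
noncomputable def pick (p : D d → ℝ) (E : Finset (D d)) : Measure (D d) :=
  ∑ e ∈ (if E.Nonempty then E else Finset.univ),
    ENNReal.ofReal (p e / ∑ e' ∈ (if E.Nonempty then E else Finset.univ), p e') • Measure.dirac e

/-- the distributions of the entries of the input at one time -/
noncomputable def lam (p : ℕ → D d → ℝ) (q : D d → ℝ) : Option (J d) → Measure (D d)
  | none => pick (p 0) Finset.univ
  | some (0, _, E) => pick q E
  | some (i + 1, _, E) => pick (p (i + 1)) E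

/-- the law of the input at one time -/
noncomputable def nu (p : ℕ → D d → ℝ) (q : D d → ℝ) : Measure (S d) :=
  Measure.infinitePi (lam p q)

/-- the law of the whole input -/
noncomputable def PP (p : ℕ → D d → ℝ) (q : D d → ℝ) : Measure (ℕ → S d) :=
  Measure.infinitePi fun _ : ℕ => nu p q

/-- the shift by `c` -/
def sh (c : ℕ) (x : ℕ → S d) : ℕ → S d := fun k => x (k + c)

/-- the height of a vertex in the direction `δ` -/
def ht (δ : Fin d → ℝ) (v : V d) : ℝ := ∑ j, δ j * (v j : ℝ)

/-- `c` is a cut time of `X^(0)` -/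
def Cut (δ : Fin d → ℝ) (x : ℕ → S d) (c : ℕ) : Prop :=
  (∀ j ≤ c, ht δ (path0 x j) ≤ ht δ (path0 x c)) ∧ ∀ j > c, ht δ (path0 x c) < ht δ (path0 x j)

/-- the inputs of probability one for which the construction works -/
structure Good (δ : Fin d → ℝ) (x : ℕ → S d) : Prop where
  trans : ∀ M : ℝ, ∃ N, ∀ n ≥ N, M < ht δ (path0 x n)
  cuts : ∀ N, ∃ c ≥ N, Cut δ x c
  mem : ∀ (k i m : ℕ) (E : Finset (D d)), E.Nonempty → x k (some (i, m, E)) ∈ E
  fair : ∀ (k i : ℕ) (E : Finset (D d)) (e : D d), e ∈ E → ∀ M, ∃ m ≥ M, x k (some (i, m, E)) = e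

/-- the `m`-th cut time, `m = 0, 1, ...` -/
noncomputable def ct (δ : Fin d → ℝ) (x : ℕ → S d) (m : ℕ) : ℕ := Nat.nth (Cut δ x) m

/-- the first time at which `X^(∞)` visits the vertex of the `m`-th cut time -/
noncomputable def hit (δ : Fin d → ℝ) (x : ℕ → S d) (m : ℕ) : ℕ :=
  sInf {n | YY x n = path0 x (ct δ x m)}

/-- the vertices which `X^(0)` visits at the times `k` with `a < k ≤ b` -/
def block (x : ℕ → S d) (a b : ℕ) : Set (V d) := {v | ∃ k, a < k ∧ k ≤ b ∧ path0 x k = v}

open Classical in
/-- The number of the visits of `X^(∞)` to the set `B` before the time `T`. -/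
noncomputable def visits (y : ℕ → V d) (B : Set (V d)) (T : ℕ) : ℕ :=
  ((Finset.range T).filter fun n => y n ∈ B).card

/-- for `x` with the cut time `0`: the number of visits of `X^(∞)` to the vertices between the cut
times `ct 0 = 0` and `ct 1`, before the first visit to the vertex of the `K`-th cut time -/
noncomputable def LK (δ : Fin d → ℝ) (x : ℕ → S d) (K : ℕ) : ℕ :=
  visits (YY x) (block x 0 (ct δ x 1)) (hit δ x K)

/-- `w` can be reached from `v` in the graph `Z` -/
def Conn (Z : Set (V d × D d)) (v w : V d) : Prop :=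
  Relation.ReflTransGen (fun a b => ∃ e, (a, e) ∈ Z ∧ b = a + vec e) v w

/-- `v` is visited infinitely often -/
def IO (y : ℕ → V d) (v : V d) : Prop := ∀ N, ∃ n ≥ N, y n = v

/-- the stacks `s` are fair stacks on the graph `Z` -/
structure FairOn (Z : Set (V d × D d)) (s : V d → ℕ → V d) : Prop where
  sym : ∀ v e, (v, e) ∈ Z → (v + vec e, opp e) ∈ Z
  mem : ∀ v, (∃ e, (v, e) ∈ Z) → ∀ m, ∃ e, (v, e) ∈ Z ∧ s v m = v + vec e
  fair : ∀ v e, (v, e) ∈ Z → ∀ M, ∃ m ≥ M, s v m = v + vec e
  start : ∃ e, ((0 : V d), e) ∈ Z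

/-- properties of the graphs of all levels `≥ 1` -/
structure NiceG (δ : Fin d → ℝ) (x : ℕ → S d) (Z : Set (V d × D d)) : Prop where
  sym : ∀ v e, (v, e) ∈ Z → (v + vec e, opp e) ∈ Z
  sub : Z ⊆ trace (path0 x)
  cut : ∀ c, Cut δ x c → (path0 x c, x c none) ∈ Z
  conn : ∀ c, Cut δ x c → Conn Z 0 (path0 x c)

/-- replace the stacks of the level `a` by `u` -/
def repl (a : ℕ) (x : ℕ → S d) (u : ℕ × ℕ × Finset (D d) → D d) : ℕ → S d
  | k, none => x k none
  | k, some (i, m, E) => if i = a then u (k, m, E) else x k (some (i, m, E))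

end Pool.Agent.K3h5.IB
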