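import Pool.Agent.K3h5.IB.Stm

/-!
# Iterated biased random walks: the transfer to arbitrary realisations (helper5)
-/

set_option autoImplicit false

open MeasureTheory Filter Topology

universe u

namespace Pool.Agent.K3h5.IB

theorem final (h1 : S_PROB) (h2 : S_MODEL) (h3 : S_LAW) (h4 : S_UNIQ.{u}) (d : ℕ)
    (p : ℕ → D d → ℝ) (q : D d → ℝ) (hpq : Par p q) :
    ∃ κ : ℝ, 0 ≤ κ ∧ ∀ (Ω : Type u) [MeasurableSpace Ω] (μ : Measure Ω) [IsProbabilityMeasure μ]
      (X : Ω → ℕ → ℕ → V d) (Y : Ω → ℕ → V d), IsIterated μ p q X Y →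
        ∀ᵐ ω ∂μ, ∀ j : Fin d,
          Tendsto (fun n : ℕ => (Y ω n j : ℝ) / n) atTop (𝓝 (κ * drift (p 0) j)) := by
  obtain ⟨κ, hκ, hae⟩ := h2 d p q hpq
  refine ⟨κ, hκ, ?_⟩
  intro Ω _ μ _ X Y hXY
  haveI := (h1 d p q hpq).2.2.1
  have hlaw := h3 d p q hpq
  have heq : μ.map Y = (PP p q).map (fun x => YY x) :=
    h4 d p q Ω μ (ℕ → S d) (PP p q) X Y (fun x => XX x) (fun x => YY x) hXY hlaw
  have hY : Measurable Y := measurable_pi_iff.2 hXY.walkInf.meas
  have hYY : Measurable (fun x : ℕ → S d => YY x) := measurable_pi_iff.2 hlaw.walkInf.meas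
  have hB : MeasurableSet {y : ℕ → V d | ∀ j : Fin d,
      Tendsto (fun n : ℕ => (y n j : ℝ) / n) atTop (𝓝 (κ * drift (p 0) j))} := by
    have : {y : ℕ → V d | ∀ j : Fin d,
        Tendsto (fun n : ℕ => (y n j : ℝ) / n) atTop (𝓝 (κ * drift (p 0) j))} =
        ⋂ j : Fin d, {y : ℕ → V d |
          Tendsto (fun n : ℕ => (y n j : ℝ) / n) atTop (𝓝 (κ * drift (p 0) j))} := by
      ext y
      simp
    rw [this]
    refine MeasurableSet.iInter fun j => ?_
    refine measurableSet_tendsto (l := atTop) (f := fun (n : ℕ) (y : ℕ → V d) => (y n j : ℝ) / n) _ ?_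
    intro n
    have h5 : Measurable fun y : ℕ → V d => y n j :=
      (measurable_pi_apply j).comp (measurable_pi_apply n)
    exact ((measurable_from_top (f := fun z : ℤ => (z : ℝ))).comp h5).div_const _
  have h6 : ∀ᵐ y ∂((PP p q).map fun x => YY x), y ∈ {y : ℕ → V d | ∀ j : Fin d,
      Tendsto (fun n : ℕ => (y n j : ℝ) / n) atTop (𝓝 (κ * drift (p 0) j))} := by
    exact (ae_map_iff hYY.aemeasurable hB).2 hae
  rw [← heq] at h6
  exact (ae_map_iff hY.aemeasurable hB).1 h6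

end Pool.Agent.K3h5.IB
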