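import Pool.Agent.K3h5.IB.Defs

/-!
# Iterated biased random walks: statements of the bricks (helper5)
-/

set_option autoImplicit false

open MeasureTheory Filter Topology

universe u

namespace Pool.Agent.K3h5.IB

/-! ### deterministic part -/

/-- ROUTE: the path `route s` is the only one which starts in `0` and is driven by `s`. -/
def S_ROUTE : Prop := ∀ (d : ℕ) (s : V d → ℕ → V d) (y : ℕ → V d),
  (y 0 = 0 ∧ Driven s y) ↔ y = route s

/-- FAIR -/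
def S_FAIR : Prop := ∀ (d : ℕ) (Z : Set (V d × D d)) (s : V d → ℕ → V d), FairOn Z s →
  ∀ y : ℕ → V d, y 0 = 0 → Driven s y →
    (∀ n, ∃ e, (y n, e) ∈ Z ∧ y (n + 1) = y n + vec e) ∧
    (∀ v w, IO y v → Conn Z 0 w → IO y w) ∧
    ({w | Conn Z 0 w}.Infinite → ∀ F : Set (V d), F.Finite → ∀ N, ∃ n ≥ N, y n ∉ F)

/-- EXC: the excision lemma. `R` is a set of vertices which the two paths enter only from `o` to
`g`. -/
def S_EXC : Prop := ∀ (d : ℕ) (R : Set (V d)) (o g : V d) (s s' : V d → ℕ → V d)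
  (y y' : ℕ → V d), y 0 ∉ R → y' 0 ∉ R → Driven s y → Driven s' y' →
  (∀ n, y n ∉ R → y (n + 1) ∈ R → y n = o ∧ y (n + 1) = g) →
  (∀ n, y' n ∉ R → y' (n + 1) ∈ R → y' n = o ∧ y' (n + 1) = g) →
  (∀ N, ∃ n ≥ N, y n ∈ R) → (∀ N, ∃ n ≥ N, y' n ∈ R) →
  (∀ n, y n ∈ R → ∀ m, s (y n) m = s' (y n) m) →
    -- the same edges at the vertices of `R`
    (∀ v ∈ R, ∀ e, (v, e) ∈ trace y ↔ (v, e) ∈ trace y') ∧
    -- the same numbers of visits to subsets `B` of `R` before the first visit of `h ∈ R`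
    (∀ h ∈ R, ∀ B ⊆ R, (∃ n, y n = h) → (∃ n, y' n = h) ∧
      visits y B (sInf {n | y n = h}) = visits y' B (sInf {n | y' n = h}))

/-- CUTG: facts on the cut times. -/
def S_CUTG : Prop := ∀ (d : ℕ) (δ : Fin d → ℝ) (x : ℕ → S d), Good δ x →
  (∀ c k, path0 (sh c x) k = path0 x (c + k) - path0 x c) ∧
  (∀ v e, (v, e) ∈ trace (path0 x) → (v + vec e, opp e) ∈ trace (path0 x)) ∧
  (∀ c, Cut δ x c → 
    -- only one edge leads to the right
    (∀ v e, (v, e) ∈ trace (path0 x) → ht δ v ≤ ht δ (path0 x c) →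
      ht δ (path0 x c) < ht δ (v + vec e) → v = path0 x c ∧ v + vec e = path0 x (c + 1)) ∧
    -- the left part is finite
    (∀ v e, (v, e) ∈ trace (path0 x) → ht δ v ≤ ht δ (path0 x c) → ∃ k ≤ c, path0 x k = v) ∧
    -- shifts
    (∀ k, Cut δ (sh c x) k ↔ Cut δ x (c + k)) ∧
    Good δ (sh c x) ∧
    (∀ v, ht δ (path0 x c) < ht δ v → (∃ n, path0 x n = v) →
      idx x v = c + idx (sh c x) (v - path0 x c)) ∧
    (∀ v e, ht δ (path0 x c) < ht δ v →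
      ((v, e) ∈ trace (path0 x) ↔ (v - path0 x c, e) ∈ trace (path0 (sh c x))))) ∧
  -- enumeration of the cut times
  (StrictMono (ct δ x)) ∧ (∀ m, Cut δ x (ct δ x m)) ∧
  (∀ c, Cut δ x c → ∃ m, ct δ x m = c) ∧
  (∀ j K, ct δ (sh (ct δ x j) x) K + ct δ x j = ct δ x (j + K))

/-- NICE: on nice graphs the stacks are fair and the component of `0` is infinite. -/
def S_NICE : Prop := ∀ (d : ℕ) (δ : Fin d → ℝ) (x : ℕ → S d), Good δ x →
  ∀ Z : Set (V d × D d), NiceG δ x Z → (∀ i, FairOn Z (stk x i Z)) ∧ {w | Conn Z 0 w}.Infinite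

/-- CROSS: the walk on a nice graph crosses all the cut edges. -/
def S_CROSS : Prop := ∀ (d : ℕ) (δ : Fin d → ℝ) (x : ℕ → S d), Good δ x →
  ∀ Z : Set (V d × D d), NiceG δ x Z → ∀ (i : ℕ) (y : ℕ → V d), y = route (stk x i Z) →
    y 0 = 0 ∧ Driven (stk x i Z) y ∧ (∀ n, ∃ e, (y n, e) ∈ Z ∧ y (n + 1) = y n + vec e) ∧
    (∀ n, ∃ k, path0 x k = y n) ∧
    ∀ c, Cut δ x c →
      (∀ N, ∃ n ≥ N, ht δ (path0 x c) < ht δ (y n)) ∧
      (∀ n, ht δ (y n) ≤ ht δ (path0 x c) → ht δ (path0 x c) < ht δ (y (n + 1)) →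
        y n = path0 x c ∧ y (n + 1) = path0 x (c + 1)) ∧
      (∃ n, y n = path0 x c ∧ ∀ k ≤ n, ht δ (y k) ≤ ht δ (path0 x c)) ∧
      (path0 x c, x c none) ∈ trace y

/-- IND: all the graphs are nice. -/
def S_IND : Prop := ∀ (d : ℕ) (δ : Fin d → ℝ) (x : ℕ → S d), Good δ x →
  (∀ i, NiceG δ x (graph (XX x) (i + 1))) ∧ NiceG δ x (graphInf (XX x))

/-- CONS: to the right of a cut the graphs are those of the shifted input. -/
def S_CONS : Prop := ∀ (d : ℕ) (δ : Fin d → ℝ) (x : ℕ → S d), Good δ x → ∀ c, Cut δ x c →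
  (∀ i v e, ht δ (path0 x c) < ht δ v →
    ((v, e) ∈ graph (XX x) (i + 1) ↔ (v - path0 x c, e) ∈ graph (XX (sh c x)) (i + 1))) ∧
  (∀ v e, ht δ (path0 x c) < ht δ v →
    ((v, e) ∈ graphInf (XX x) ↔ (v - path0 x c, e) ∈ graphInf (XX (sh c x))))

/-- CONSY: to the right of a cut the walk `X^(∞)` is the one of the shifted input. -/
def S_CONSY : Prop := ∀ (d : ℕ) (δ : Fin d → ℝ) (x : ℕ → S d), Good δ x → ∀ c, Cut δ x c →
  ∀ c', c < c' → Cut δ x c' → ∀ a b, 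
    visits (YY x) (block x (c + a) (c + b)) (sInf {n | YY x n = path0 x c'}) =
    visits (YY (sh c x)) (block (sh c x) a b)
      (sInf {n | YY (sh c x) n = path0 (sh c x) (c' - c)})

/-- CNT: the exact formula for the hitting times of the cut vertices. -/
def S_CNT : Prop := ∀ (d : ℕ) (δ : Fin d → ℝ) (x : ℕ → S d), Good δ x → ∀ m,
  hit δ x m = visits (YY x) {v | ∃ k ≤ ct δ x 0, path0 x k = v} (hit δ x m) +
    ∑ j ∈ Finset.range m, LK δ (sh (ct δ x j) x) (m - j)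

/-- HIT: the hitting times of the cut vertices. -/
def S_HIT : Prop := ∀ (d : ℕ) (δ : Fin d → ℝ) (x : ℕ → S d), Good δ x →
  StrictMono (hit δ x) ∧ (∀ m, YY x (hit δ x m) = path0 x (ct δ x m)) ∧
  (∀ m n, n < hit δ x (m + 1) → ∃ k ≤ ct δ x (m + 1), path0 x k = YY x n) ∧
  (∀ n, ∃ e, YY x (n + 1) = YY x n + vec e) ∧
  (∀ K, Cut δ x 0 → LK δ x K ≤ LK δ x (K + 1)) ∧ (Cut δ x 0 → 1 ≤ LK δ x 2)

/-- FIN: if the block after the first cut time is visited finitely often, then the initial part is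
visited finitely often. -/
def S_FIN : Prop := ∀ (d : ℕ) (δ : Fin d → ℝ) (x : ℕ → S d), Good δ x →
  ∀ C : ℕ, (∀ K, LK δ (sh (ct δ x 0) x) K ≤ C) →
    ∃ C' : ℕ, ∀ T, visits (YY x) {v | ∃ k ≤ ct δ x 0, path0 x k = v} T ≤ C'

/-- DF: the final step of the deterministic part, for one coordinate. -/
def S_DF : Prop := ∀ (y P : ℕ → ℤ) (c T : ℕ → ℕ) (D : ℝ) (Λ : ENNReal),
  StrictMono c → StrictMono T → (∀ n, |y (n + 1) - y n| ≤ 1) → (∀ n, |P n| ≤ n) →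
  (∀ m, y (T m) = P (c m)) → (∀ m n, n < T (m + 1) → ∃ k ≤ c (m + 1), y n = P k) →
  Tendsto (fun n : ℕ => (P n : ℝ) / n) atTop (𝓝 D) →
  Tendsto (fun m : ℕ => (c m : ℝ) / (c (m + 1) : ℝ)) atTop (𝓝 1) →
  Λ ≠ 0 → Tendsto (fun m : ℕ => ((T m : ENNReal) / (c m : ENNReal))) atTop (𝓝 Λ) →
    Tendsto (fun n : ℕ => (y n : ℝ) / n) atTop (𝓝 ((Λ⁻¹).toReal * D))

/-! ### measurability and probability -/

/-- MEAS1: measurability of the walks. -/
def S_MEAS1 : Prop := ∀ (d : ℕ),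
  (∀ i n, Measurable fun x : ℕ → S d => XX x i n) ∧ (∀ n, Measurable fun x : ℕ → S d => YY x n) ∧
  (∀ a : V d × D d, MeasurableSet {x : ℕ → S d | a ∈ graphInf (XX x)}) ∧
  (∀ i (a : V d × D d), MeasurableSet {x : ℕ → S d | a ∈ graph (XX x) i}) ∧
  (∀ v : V d, Measurable fun x : ℕ → S d => idx x v)

/-- MEAS2: measurability of the counts. -/
def S_MEAS2 : Prop := ∀ (d : ℕ) (δ : Fin d → ℝ),
  (∀ c, MeasurableSet {x : ℕ → S d | Cut δ x c}) ∧
  (∀ m, Measurable fun x : ℕ → S d => ct δ x m) ∧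
  (∀ m, Measurable fun x : ℕ → S d => hit δ x m) ∧
  (∀ K, Measurable fun x : ℕ → S d => LK δ x K)

/-- MEASW: measurability of the weights as functions on the path space. -/
def S_MEASW : Prop := ∀ (d : ℕ) (p : D d → ℝ) (y : ℕ → V d) (n : ℕ),
  (∀ i, Measurable fun X : ℕ → ℕ → V d => weight p (graph X i) y n) ∧
  (Measurable fun X : ℕ → ℕ → V d => weight p (graphInf X) y n) ∧
  (∀ (Ω : Type) [MeasurableSpace Ω] (Z : Ω → Set (V d × D d)),
    (∀ a, MeasurableSet {ω | a ∈ Z ω}) → Measurable fun ω => weight p (Z ω) y n)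

/-- admissible parameters -/
structure Par {d : ℕ} (p : ℕ → D d → ℝ) (q : D d → ℝ) : Prop where
  pos : ∀ i e, 0 < p i e
  one : ∀ i, ∑ e, p i e = 1
  qpos : ∀ e, 0 < q e
  qone : ∑ e, q e = 1
  drift : ∃ j, drift (p 0) j ≠ 0

/-- PROB: the laws are probability measures, the law of the first steps. -/
def S_PROB : Prop := ∀ (d : ℕ) (p : ℕ → D d → ℝ) (q : D d → ℝ), Par p q →
  (∀ o, IsProbabilityMeasure (lam p q o)) ∧ IsProbabilityMeasure (nu p q) ∧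
  IsProbabilityMeasure (PP p q) ∧
  (∀ e, (lam p q none).real {e} = p 0 e) ∧
  (∀ i m (E : Finset (D d)), E.Nonempty → ∀ e ∈ E,
    (lam p q (some (i + 1, m, E))).real {e} = p (i + 1) e / ∑ e' ∈ E, p (i + 1) e') ∧
  (∀ m (E : Finset (D d)), E.Nonempty → ∀ e ∈ E,
    (lam p q (some (0, m, E))).real {e} = q e / ∑ e' ∈ E, q e') ∧
  (∀ i m (E : Finset (D d)), E.Nonempty → ∀ e ∉ E, (lam p q (some (i, m, E))).real {e} = 0)

/-- ASFAIR: the stacks are almost surely fair. -/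
def S_ASFAIR : Prop := ∀ (d : ℕ) (p : ℕ → D d → ℝ) (q : D d → ℝ), Par p q →
  ∀ᵐ x ∂(PP p q), (∀ (k i m : ℕ) (E : Finset (D d)), E.Nonempty → x k (some (i, m, E)) ∈ E) ∧
    ∀ (k i : ℕ) (E : Finset (D d)) (e : D d), e ∈ E → ∀ M, ∃ m ≥ M, x k (some (i, m, E)) = e

/-- LLN: the law of large numbers for `X^(0)`. -/
def S_LLN : Prop := ∀ (d : ℕ) (p : ℕ → D d → ℝ) (q : D d → ℝ), Par p q →
  ∀ᵐ x ∂(PP p q), (∀ j : Fin d,
    Tendsto (fun n : ℕ => (path0 x n j : ℝ) / n) atTop (𝓝 (drift (p 0) j))) ∧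
    Tendsto (fun n : ℕ => ht (drift (p 0)) (path0 x n) / n) atTop
      (𝓝 (∑ j, drift (p 0) j ^ 2)) ∧
    ∀ M : ℝ, ∃ N, ∀ n ≥ N, M < ht (drift (p 0)) (path0 x n)

/-- POS: with positive probability the time `0` is a cut time. -/
def S_POS : Prop := ∀ (d : ℕ) (p : ℕ → D d → ℝ) (q : D d → ℝ), Par p q →
  0 < (PP p q).real {x | Cut (drift (p 0)) x 0}

/-- EB: the ergodic theorem for integrable functions and the shift of the two-sided iid
sequences. -/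
def S_EB : Prop := ∀ (Z : Type) [MeasurableSpace Z] (ν : Measure Z) [IsProbabilityMeasure ν]
  (f : (ℤ → Z) → ℝ), Measurable f → Integrable f (Measure.infinitePi fun _ : ℤ => ν) →
  ∀ᵐ w ∂(Measure.infinitePi fun _ : ℤ => ν),
    Tendsto (fun n : ℕ => (∑ k ∈ Finset.range n, f (fun i => w (i + k))) / n) atTop
      (𝓝 (∫ w, f w ∂(Measure.infinitePi fun _ : ℤ => ν)))

open Classical in
/-- BC: the ergodic theorem along the cut times. -/
def S_BC : Prop := ∀ (d : ℕ) (p : ℕ → D d → ℝ) (q : D d → ℝ), Par p q →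
  ∃ r : ℝ, 0 < r ∧ ∀ g : (ℕ → S d) → ℝ, Measurable g → (∀ x, 0 ≤ g x) →
    IntegrableOn g {x | Cut (drift (p 0)) x 0} (PP p q) →
    ∀ᵐ x ∂(PP p q), Tendsto (fun n : ℕ =>
      (∑ k ∈ Finset.range n, if Cut (drift (p 0)) x k then g (sh k x) else 0) / n) atTop
      (𝓝 (r * ∫ x in {x | Cut (drift (p 0)) x 0}, g x ∂(PP p q)))

/-- GOODAS: almost all inputs are good. -/
def S_GOODAS : Prop := ∀ (d : ℕ) (p : ℕ → D d → ℝ) (q : D d → ℝ), Par p q →
  ∀ᵐ x ∂(PP p q), Good (drift (p 0)) x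

/-- LIM: the hitting times of the cut vertices grow linearly (or faster). -/
def S_LIM : Prop := ∀ (d : ℕ) (p : ℕ → D d → ℝ) (q : D d → ℝ), Par p q →
  ∃ Λ : ENNReal, Λ ≠ 0 ∧ ∀ᵐ x ∂(PP p q),
    Tendsto (fun m : ℕ => (ct (drift (p 0)) x m : ℝ) / (ct (drift (p 0)) x (m + 1) : ℝ)) atTop
      (𝓝 1) ∧
    Tendsto (fun m : ℕ => ((hit (drift (p 0)) x m : ENNReal) / (ct (drift (p 0)) x m : ENNReal)))
      atTop (𝓝 Λ)

/-- MODEL: the walk `X^(∞)` of the model has a deterministic velocity. -/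
def S_MODEL : Prop := ∀ (d : ℕ) (p : ℕ → D d → ℝ) (q : D d → ℝ), Par p q →
  ∃ κ : ℝ, 0 ≤ κ ∧ ∀ᵐ x ∂(PP p q), ∀ j : Fin d,
    Tendsto (fun n : ℕ => (YY x n j : ℝ) / n) atTop (𝓝 (κ * drift (p 0) j))

/-! ### the law of the model -/

/-- the distribution of the stacks of the level `a` -/
noncomputable def UU {d : ℕ} (p : ℕ → D d → ℝ) (q : D d → ℝ) (a : ℕ) :
    Measure (ℕ × ℕ × Finset (D d) → D d) :=
  Measure.infinitePi fun j : ℕ × ℕ × Finset (D d) => lam p q (some (a, j.2.1, j.2.2))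

/-- REPL: the stacks of the level `a` are independent of the rest. -/
def S_REPL : Prop := ∀ (d : ℕ) (p : ℕ → D d → ℝ) (q : D d → ℝ), Par p q → ∀ a : ℕ,
  MeasurePreserving (fun z : (ℕ → S d) × (ℕ × ℕ × Finset (D d) → D d) => repl a z.1 z.2)
    ((PP p q).prod (UU p q a)) (PP p q)

/-- DEP: the walks of the levels `< i` do not depend on the stacks of the level `i`, and no
`X^(i)` depends on the stacks of the level `0`. -/
def S_DEP : Prop := ∀ (d : ℕ) (x : ℕ → S d) (u : ℕ × ℕ × Finset (D d) → D d),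
  (∀ a, path0 (repl a x u) = path0 x) ∧ (∀ a, idx (repl a x u) = idx x) ∧
  (∀ i, ∀ j < i, XX (repl i x u) j = XX x j) ∧ (∀ j, XX (repl 0 x u) j = XX x j)

/-- ONE: one level. `Z` is a random graph which does not depend on the stacks of the level `a`. -/
def S_ONE : Prop := ∀ (d : ℕ) (p : ℕ → D d → ℝ) (q : D d → ℝ),
  Par p q → ∀ (a : ℕ) (Z : (ℕ → S d) → Set (V d × D d)),
  (∀ b, MeasurableSet {x | b ∈ Z x}) → (∀ x u, Z (repl a x u) = Z x) →
  (∀ x v e, (v, e) ∈ Z x → (v + vec e, opp e) ∈ Z x) → 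
  (∀ᵐ x ∂(PP p q), (∃ e, ((0 : V d), e) ∈ Z x) ∧ ∀ v e, (v, e) ∈ Z x → ∃ n, path0 x n = v) →
  ∀ A : Set (ℕ → S d), MeasurableSet A → (∀ x u, repl a x u ∈ A ↔ x ∈ A) → 
  ∀ (n : ℕ) (y : ℕ → V d),
    (PP p q).real (A ∩ {x | ∀ k ≤ n, route (stk x a (Z x)) k = y k}) =
      ∫ x in A, weight (if a = 0 then q else p a) (Z x) y n ∂(PP p q)

/-- LAW0: the law of `X^(0)`. -/
def S_LAW0 : Prop := ∀ (d : ℕ) (p : ℕ → D d → ℝ) (q : D d → ℝ), Par p q →
  ∀ (n : ℕ) (y : ℕ → V d),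
    (PP p q).real {x | ∀ k ≤ n, path0 x k = y k} = weight (p 0) Set.univ y n

/-- LAW: the model is a realisation of the iterated random walks. -/
def S_LAW : Prop := ∀ (d : ℕ) (p : ℕ → D d → ℝ) (q : D d → ℝ), Par p q →
    IsIterated (PP p q) p q (fun x => XX x) (fun x => YY x)

/-- UNIQ: the conditions determine the law of `X^(∞)`. -/
def S_UNIQ : Prop := ∀ (d : ℕ) (p : ℕ → D d → ℝ) (q : D d → ℝ)
  (Ω : Type u) [MeasurableSpace Ω] (μ : Measure Ω) [IsProbabilityMeasure μ]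
  (Ω' : Type) [MeasurableSpace Ω'] (μ' : Measure Ω') [IsProbabilityMeasure μ']
  (X : Ω → ℕ → ℕ → V d) (Y : Ω → ℕ → V d) (X' : Ω' → ℕ → ℕ → V d) (Y' : Ω' → ℕ → V d),
  IsIterated μ p q X Y → IsIterated μ' p q X' Y' → μ.map Y = μ'.map Y'

end Pool.Agent.K3h5.IB
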